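import Pool.Agent.Helper29.AR.Props
import Pool.Agent.Helper62.SR.Disj
import Pool.Agent.Helper45.RC.DomM

/-!
# MP_b55b7c_an: ranks of disjoint parts add up, with an error (packet AR-DisjL)
-/

open scoped ENNReal NNReal InnerProductSpace ComplexOrder
open Filter Topology

attribute [-instance] CStarMatrix.instAlgebra CStarMatrix.instModule CStarMatrix.instSMul
  CStarMatrix.instMulAction CStarMatrix.instDistribMulAction

set_option linter.unusedSectionVars false

noncomputable section
namespace RC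
universe u

open Disj in
/-- Packet AR-DisjL. -/
theorem disjLP (hLe : CuLeAddP.{u}) (hSwap : CuSwapP.{u}) (hAdd : CuAddP.{u})
    (hMono : QMonoP.{u}) (hDs : QDsumP.{u}) : DisjLP.{u} := by
  intro M _ _ _ w y z c E δ θ C hy hz hc hE hδ hθ hwy hwz hC σ
  -- the square root of `y`
  obtain ⟨s, hs0, hss⟩ : ∃ s : M, 0 ≤ s ∧ s * s = y :=
    ⟨CFC.sqrt y, CFC.sqrt_nonneg y, CFC.sqrt_mul_sqrt_self y hy⟩
  have hsst : star s = s := hs0.isSelfAdjoint
  have hzst : star z = z := hz
  have hzz : 0 ≤ z * z := by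
    have := star_mul_self_nonneg z
    rwa [hzst] at this
  have o1m : ∀ a b : M, one1 (a * b) = one1 a * one1 b := fun a b => map_mul one1H a b
  have o1s : ∀ a : M, (one1 a).conjTranspose = one1 (star a) := fun a =>
    (map_star one1H a).symm
  have o1r : ∀ (r : ℝ) (a : M), one1 (r • a) = r • one1 a := fun r a => rfl
  -- the rows
  set L : CStarMatrix (Unit ⊕ Unit) Unit M := inlM M Unit Unit with hL
  set R : CStarMatrix (Unit ⊕ Unit) Unit M := inrM M Unit Unit with hR
  have hLL : L.conjTranspose * L = 1 := inl_inl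
  have hRR : R.conjTranspose * R = 1 := inr_inr
  have hLR : L.conjTranspose * R = 0 := inl_inr
  have hRL : R.conjTranspose * L = 0 := inr_inl
  set T1 : CStarMatrix Unit (Unit ⊕ Unit) M := one1 s * L.conjTranspose with hT1
  set T2 : CStarMatrix Unit (Unit ⊕ Unit) M := one1 z * R.conjTranspose with hT2
  set T : CStarMatrix Unit (Unit ⊕ Unit) M := T1 + T2 with hT
  have gL : ∀ a : M, (one1 a * L.conjTranspose).conjTranspose * (one1 a * L.conjTranspose) =
      dsum (one1 (star a * a)) 0 := by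
    intro a
    rw [cm_conj_mul, cm_conj_conj, ← cm_assoc, cm_assoc L, o1s, ← o1m]
    exact inlM_conj _
  have gR : ∀ a : M, (one1 a * R.conjTranspose).conjTranspose * (one1 a * R.conjTranspose) =
      dsum 0 (one1 (star a * a)) := by
    intro a
    rw [cm_conj_mul, cm_conj_conj, ← cm_assoc, cm_assoc R, o1s, ← o1m]
    exact inrM_conj _
  have hY : T1.conjTranspose * T1 = dsum (one1 y) 0 := by
    rw [hT1, gL, hsst, hss]
  have hZ : T2.conjTranspose * T2 = dsum 0 (one1 (z * z)) := by
    rw [hT2, gR, hzst]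
  have hTT : T * T.conjTranspose = one1 (y + z * z) := by
    have e : ∀ a b : M, ∀ P Q : CStarMatrix (Unit ⊕ Unit) Unit M,
        (one1 a * P.conjTranspose) * (one1 b * Q.conjTranspose).conjTranspose =
        one1 a * (P.conjTranspose * Q) * one1 (star b) := by
      intro a b P Q
      rw [cm_conj_mul, cm_conj_conj, o1s, ← cm_assoc, cm_assoc (one1 a)]
    rw [hT, cm_conj_add, cm_mul_add, cm_add_mul, cm_add_mul, hT1, hT2, e, e, e, e, hLL, hRR, hLR,
      hRL, hsst, hzst]
    have e0 : ∀ a : M, one1 a * (0 : CStarMatrix Unit Unit M) = 0 := fun a => mul_zero _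
    have e1 : ∀ a : M, (0 : CStarMatrix Unit Unit M) * one1 a = 0 := fun a => zero_mul _
    rw [e0, e1, e0, e1, cm_mul_one, cm_mul_one, ← o1m, ← o1m, hss]
    have : one1 (y + z * z) = one1 y + one1 (z * z) := map_add one1H y (z * z)
    rw [this, add_zero, zero_add]
  set W : CStarMatrix Unit Unit M := one1 w with hW
  set P : CStarMatrix (Unit ⊕ Unit) (Unit ⊕ Unit) M := T.conjTranspose * T with hP
  set Z : CStarMatrix (Unit ⊕ Unit) (Unit ⊕ Unit) M := dsum 0 (one1 (z * z)) with hZdef
  set Y : CStarMatrix (Unit ⊕ Unit) (Unit ⊕ Unit) M := dsum (one1 y) 0 with hYdef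
  have hP0 : 0 ≤ P := cm_conj_mul_nonneg T
  set X : CStarMatrix (Unit ⊕ Unit) (Unit ⊕ Unit) M := dsum 0 (one1 (z * E * z)) with hXdef
  have hzEz : 0 ≤ z * E * z := by
    have := star_left_conjugate_nonneg hE z
    rwa [hzst] at this
  have hX0 : 0 ≤ X := dsum_nonneg le_rfl (one1_nonneg hzEz)
  -- the first estimate
  have h1 : δ • Z ≤ (2 * ‖W‖ ^ 2) • P + (δ * θ / 3) • 1 + X := by
    have a1 := sqdiff (W * T) (W * T1)
    have a2 : W * T - W * T1 = W * T2 := by
      rw [← cm_mul_sub, hT, add_sub_cancel_left]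
    rw [a2] at a1
    have a3 := mul_sq_le W T
    have a4 : (W * T1).conjTranspose * (W * T1) ≤ (δ * θ / 6) • 1 := by
      have b1 : W * T1 = one1 (w * s) * L.conjTranspose := by
        rw [hT1, ← cm_assoc, hW, ← o1m]
      rw [b1, gL]
      have b2 : star (w * s) * (w * s) ≤ (δ * θ / 6) • (1 : M) := by
        have c1 := CStarAlgebra.star_mul_le_algebraMap_norm_sq (a := w * s)
        rw [Algebra.algebraMap_eq_smul_one] at c1
        refine c1.trans ?_
        have c2 : ‖w * s‖ ^ 2 = ‖w * y * star w‖ := by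
          rw [pow_two, ← CStarRing.norm_self_mul_star]
          congr 1
          rw [star_mul, hsst, ← hss]
          simp only [mul_assoc]
        rw [c2]
        have c3 : (0 : M) ≤ 1 := zero_le_one
        exact smul_le_smul_of_nonneg_right hwy c3
      have b3 : dsum (one1 (star (w * s) * (w * s))) (0 : CStarMatrix Unit Unit M) ≤
          dsum (one1 ((δ * θ / 6) • (1 : M))) (one1 ((δ * θ / 6) • (1 : M))) := by
        refine CutDown.dsum_mono ?_ ?_
        · have := one1_nonneg (sub_nonneg.2 b2)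
          rw [← sub_nonneg]
          have e : one1 ((δ * θ / 6) • (1 : M) - star (w * s) * (w * s)) =
            one1 ((δ * θ / 6) • (1 : M)) - one1 (star (w * s) * (w * s)) := map_sub one1H _ _
          rwa [e] at this
        · refine one1_nonneg ?_
          have c3 : (0 : M) ≤ 1 := zero_le_one
          exact smul_nonneg (by positivity) c3
      refine b3.trans (le_of_eq ?_)
      rw [o1r, CutDown.dsum_rsmul]
      have : one1 (1 : M) = 1 := map_one one1H
      rw [this, CutDown.dsum_one]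
    have a5 : δ • Z ≤ (W * T2).conjTranspose * (W * T2) + X := by
      have b1 : W * T2 = one1 (w * z) * R.conjTranspose := by
        rw [hT2, ← cm_assoc, hW, ← o1m]
      rw [b1, gR]
      have b2 : star (w * z) * (w * z) = z * sq w * z := by
        rw [star_mul, hzst]
        simp only [sq, mul_assoc]
      rw [b2]
      have b3 : δ • Z = dsum 0 (one1 (δ • (z * z))) := by
        rw [hZdef, o1r, ← CutDown.dsum_rsmul, smul_zero]
      have b4 : dsum 0 (one1 (z * sq w * z)) + X = dsum 0 (one1 (z * (sq w + E) * z)) := by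
        have e1 : one1 (z * (sq w + E) * z) = one1 (z * sq w * z) + one1 (z * E * z) := by
          rw [mul_add, add_mul]
          exact map_add one1H _ _
        rw [e1, hXdef]
        show Matrix.fromBlocks (0 : Matrix Unit Unit M) 0 0
            (show Matrix Unit Unit M from one1 (z * sq w * z)) +
          Matrix.fromBlocks (0 : Matrix Unit Unit M) 0 0
            (show Matrix Unit Unit M from one1 (z * E * z)) =
          Matrix.fromBlocks (0 : Matrix Unit Unit M) 0 0
            (show Matrix Unit Unit M from one1 (z * sq w * z) + one1 (z * E * z))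
        rw [Matrix.fromBlocks_add]
        simp only [add_zero]
        rfl
      rw [b3, b4]
      refine CutDown.dsum_mono le_rfl ?_
      have := one1_nonneg (sub_nonneg.2 hwz)
      rw [← sub_nonneg]
      have e : one1 (z * (sq w + E) * z - δ • (z * z)) =
        one1 (z * (sq w + E) * z) - one1 (δ • (z * z)) := map_sub one1H _ _
      rwa [e] at this
    refine a5.trans (add_le_add_left (a1.trans ?_) X)
    have a6 := smul_le_smul_of_nonneg_left a3 (show (0 : ℝ) ≤ 2 by norm_num)
    have a7 := smul_le_smul_of_nonneg_left a4 (show (0 : ℝ) ≤ 2 by norm_num)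
    refine (add_le_add a6 a7).trans (le_of_eq ?_)
    rw [smul_smul, smul_smul]
    congr 2
    ring
  have h2 : Y ≤ (2 : ℝ) • P + (2 : ℝ) • Z := by
    have a1 := sqdiff T T2
    have a2 : T - T2 = T1 := by rw [hT, add_sub_cancel_right]
    rw [a2, hY, hZ] at a1
    exact a1
  -- the sum
  have h3 : Z ≤ (2 * ‖W‖ ^ 2 / δ) • P + (θ / 3) • 1 + δ⁻¹ • X := by
    have a1 := smul_le_smul_of_nonneg_left h1 (show (0 : ℝ) ≤ δ⁻¹ by positivity)
    rw [smul_smul, inv_mul_cancel₀ hδ.ne', one_smul, smul_add, smul_add, smul_smul,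
      smul_smul] at a1
    refine a1.trans (le_of_eq ?_)
    congr 3
    · field_simp
    · field_simp
  have h4 : Y + Z ≤ ((2 + 3 * (2 * ‖W‖ ^ 2 / δ)) • P + (3 * δ⁻¹) • X) + θ • 1 := by
    have a1 : Y + Z ≤ (2 : ℝ) • P + (3 : ℝ) • Z := by
      refine (add_le_add_left h2 Z).trans (le_of_eq ?_)
      have : (3 : ℝ) • Z = (2 : ℝ) • Z + Z := by
        rw [show (3 : ℝ) = 2 + 1 by norm_num, add_smul, one_smul]
      rw [this, add_assoc]
    have a2 := smul_le_smul_of_nonneg_left h3 (show (0 : ℝ) ≤ 3 by norm_num)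
    refine a1.trans ((add_le_add_right a2 _).trans (le_of_eq ?_))
    rw [smul_add, smul_add, smul_smul, smul_smul, smul_smul, add_smul,
      show (3 : ℝ) * (θ / 3) = θ by ring]
    abel
  -- comparison
  have hYZ : Y + Z = dsum (one1 y) (one1 (z * z)) := by
    rw [hYdef, hZdef, ← dsum_eq_add]
  have hY0 : 0 ≤ one1 y := one1_nonneg hy
  have hZ0 : 0 ≤ one1 (z * z) := one1_nonneg hzz
  have hYZ0 : 0 ≤ Y + Z := by rw [hYZ]; exact dsum_nonneg hY0 hZ0
  set K : ℝ := 2 + 3 * (2 * ‖W‖ ^ 2 / δ) with hK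
  have hK0 : 0 ≤ K := by positivity
  have hKP : 0 ≤ K • P := smul_nonneg hK0 hP0
  have hdX : 0 ≤ (3 * δ⁻¹) • X := smul_nonneg (by positivity) hX0
  have k1 : Cu (cut (Y + Z) θ) (K • P + (3 * δ⁻¹) • X) :=
    hLe M (Unit ⊕ Unit) (Y + Z) _ θ hθ.le hYZ0 (add_nonneg hKP hdX) h4
  have k2 : Cu (K • P) P := Cu_smul P hK0
  have hTT0 : 0 ≤ T * T.conjTranspose := cm_mul_conj_nonneg T
  have k3 : Cu P (T * T.conjTranspose) := by
    have := hSwap M (Unit ⊕ Unit) Unit T.conjTranspose 0 le_rfl
    rw [cm_conj_conj, cut_zero hP0, cut_zero hTT0] at this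
    exact this
  have hC' : y + z * z ≤ |C| • c := by
    refine hC.trans ?_
    exact smul_le_smul_of_nonneg_right (le_abs_self C) hc
  have k4 : Cu (T * T.conjTranspose) (|C| • one1 c) := by
    have := hLe M Unit (T * T.conjTranspose) (|C| • one1 c) 0 le_rfl hTT0
      (smul_nonneg (abs_nonneg C) (one1_nonneg hc)) (by
        rw [zero_smul, add_zero, hTT, ← o1r]
        have := one1_nonneg (sub_nonneg.2 hC')
        rw [← sub_nonneg]
        have e : one1 (|C| • c - (y + z * z)) = one1 (|C| • c) - one1 (y + z * z) :=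
          map_sub one1H _ _
        rwa [e] at this)
    rwa [cut_zero hTT0] at this
  have k5 : Cu (|C| • one1 c) (one1 c) := Cu_smul _ (abs_nonneg C)
  have m0 := hMono M σ _ _ _ _ (cut_nonneg (Y + Z) θ) (add_nonneg hKP hdX) k1
  have m1 := m0.trans (domM_add hAdd hMono hDs σ _ _ _ hKP hdX)
  have k6 : Cu ((3 * δ⁻¹) • X) X := Cu_smul X (by positivity)
  have k7 : Cu X (one1 E) := by
    intro ε hε
    refine ⟨R * one1 z, ?_⟩
    have : R * one1 z * one1 E * (R * one1 z).conjTranspose = X := by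
      rw [cm_conj_mul, o1s, hzst, hXdef, ← inrM_conj, o1m, o1m, ← hR]
      simp only [cm_assoc]
    rw [this, sub_self, norm_zero]
    exact hε
  have m6 := hMono M σ _ _ _ _ hdX hX0 k6
  have m7 := hMono M σ _ _ _ _ hX0 (one1_nonneg hE) k7
  have m2 := hMono M σ _ _ _ _ hKP hP0 k2
  have m3 := hMono M σ _ _ _ _ hP0 hTT0 k3
  have m4 := hMono M σ _ _ _ _ hTT0 (smul_nonneg (abs_nonneg C) (one1_nonneg hc)) k4
  have m5 := hMono M σ _ _ _ _ (smul_nonneg (abs_nonneg C) (one1_nonneg hc)) (one1_nonneg hc) k5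
  have e1 : cut (Y + Z) θ = dsum (one1 (cut y θ)) (one1 (cut (z * z) θ)) := by
    rw [hYZ, CutDown.cut_dsum _ _ hY0.isSelfAdjoint hZ0.isSelfAdjoint, cut_one1 hy.isSelfAdjoint,
      cut_one1 hzz.isSelfAdjoint]
  have e2 := (hDs M σ Unit Unit (one1 (cut y θ)) (one1 (cut (z * z) θ))
    (one1_nonneg (cut_nonneg _ _)) (one1_nonneg (cut_nonneg _ _))).2
  rw [← e2, ← e1]
  linarith

end RC
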